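import Pool.Agent.H48.RN.Stmts2

/-!
# Module GRP: `H` is a group
-/

set_option autoImplicit false
set_option linter.unusedSectionVars false

namespace Pool.RN

open Polynomial

theorem s_GRP {F k : Type} [Field F] [Fintype F] [Field k] [Algebra F k] [IsAlgClosed k]
    [Algebra.IsAlgebraic F k] (M : F[X]) (Y : (EE k)[X]) (hM : M.Monic) (hm : 1 ≤ M.natDegree)
    (hY : Good M Y) (hACT : S_ACT F) (hEVA : S_EVA F k) (hHGL : S_HGL M Y) : S_GRP M Y := by
  classical
  have hsol : IsSol M (xx F k) Y := hY.sol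
  obtain ⟨-, hmul, hiff, hone⟩ := hACT M hM hm (EE k) (xx F k) Y hsol
  have hM0 : M ≠ 0 := hM.ne_zero
  -- first property
  have P1 : ∀ g g' : F[X], M ∣ g - g' → g'.degree < M.degree →
      (IsCoprime g M ∧ ∀ P : PP k M.natDegree, ev M.natDegree (xx F k) Y P = 0 →
        ev M.natDegree (xx F k) (act M g Y) P = 0) → g' ∈ HH M Y := by
    rintro g g' hdvd hdeg ⟨hcop, hP⟩
    rw [mem_HH]
    refine ⟨hdeg, ?_, fun P h0 => ?_⟩
    · obtain ⟨c, hc⟩ := hdvd
      have e : g = g' + M * c := by rw [← hc]; ring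
      rw [e] at hcop
      exact IsCoprime.of_add_mul_left_left hcop
    · rw [← (hiff g g').2 hdvd]
      exact hP P h0
  -- one
  have P2 : (1 : F[X]) ∈ HH M Y := by
    rw [mem_HH]
    refine ⟨?_, isCoprime_one_left, fun P h0 => ?_⟩
    · rw [degree_one, degree_eq_natDegree hM0]
      exact_mod_cast hm
    · rw [hone]
      exact h0
  -- products
  have P3 : ∀ g ∈ HH M Y, ∀ g' ∈ HH M Y, (g * g') %ₘ M ∈ HH M Y := by
    intro g hg g' hg'
    rw [mem_HH] at hg hg'
    refine P1 (g * g') _ ?_ (degree_modByMonic_lt _ hM) ⟨hg.2.1.mul_left hg'.2.1, fun P h0 => ?_⟩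
    · have := modByMonic_add_div (g * g') M
      exact ⟨(g * g') /ₘ M, by linear_combination -this⟩
    · rw [← hmul g g']
      have hd : (act M g' Y).degree < M.degree :=
        (hEVA M hM hm (EE k) (xx F k) Y g' hsol.deg).1
      rw [(hEVA M hM hm (EE k) (xx F k) (act M g' Y) g hd).2.2 P]
      refine hg'.2.2 _ ?_
      rw [← (hEVA M hM hm (EE k) (xx F k) Y g hsol.deg).2.2 P]
      exact hg.2.2 P h0
  refine ⟨P1, ⟨1, P2, by simp⟩, P3, ?_, Finset.card_pos.2 ⟨1, P2⟩⟩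
  intro g hg
  have hgc : IsCoprime g M := (mem_HH.1 hg).2.1
  let φ : {h // h ∈ HH M Y} → {h // h ∈ HH M Y} := fun h => ⟨(g * h.1) %ₘ M, P3 g hg h.1 h.2⟩
  have hinj : Function.Injective φ := by
    rintro ⟨h, hh⟩ ⟨h', hh'⟩ he
    have h1 : (g * h) %ₘ M = (g * h') %ₘ M := congrArg Subtype.val he
    have h2 : M ∣ g * (h - h') := by
      rw [← modByMonic_eq_zero_iff_dvd hM, mul_sub, sub_modByMonic, h1, sub_self]
    have h3 : M ∣ h - h' := hgc.symm.dvd_of_dvd_mul_left h2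
    have h4 : (h - h').degree < M.degree :=
      (degree_sub_le _ _).trans_lt (max_lt (mem_HH.1 hh).1 (mem_HH.1 hh').1)
    exact Subtype.ext (sub_eq_zero.1 (eq_zero_of_dvd_of_degree_lt h3 h4))
  have hsurj : Function.Surjective φ := Finite.injective_iff_surjective.1 hinj
  obtain ⟨⟨h, hh⟩, he⟩ := hsurj ⟨1, P2⟩
  refine ⟨h, hh, ?_⟩
  have h1 : (g * h) %ₘ M = 1 := congrArg Subtype.val he
  have h2 := modByMonic_add_div (g * h) M
  rw [h1] at h2
  exact ⟨(g * h) /ₘ M, by linear_combination -h2⟩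

end Pool.RN
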