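import Pool.Agent.H48.RN.Stmts2

/-!
# Module TOR: all solutions are multiples of one solution
-/

set_option autoImplicit false
set_option linter.unusedSectionVars false

namespace Pool.RN

open Polynomial

theorem TOR_mem_range {F L : Type} [Field F] [Fintype F] [Field L] [Algebra F L] {c : L}
    (hc : c ^ Fintype.card F = c) : ∃ a : F, algebraMap F L a = c := by
  classical
  by_contra hno
  push Not at hno
  have h1 : 1 < Fintype.card F := Fintype.one_lt_card
  have hne : (X ^ Fintype.card F - X : L[X]) ≠ 0 := FiniteField.X_pow_card_sub_X_ne_zero L h1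
  set S : Finset L := insert c (Finset.univ.image (algebraMap F L)) with hS
  have hcard : S.card = Fintype.card F + 1 := by
    rw [hS, Finset.card_insert_of_notMem, Finset.card_image_of_injective _
      (FaithfulSMul.algebraMap_injective F L), Finset.card_univ]
    simp only [Finset.mem_image, Finset.mem_univ, true_and, not_exists]
    exact hno
  have hsub : S ⊆ (X ^ Fintype.card F - X : L[X]).roots.toFinset := by
    intro y hy
    rw [Multiset.mem_toFinset, mem_roots hne]
    rw [hS, Finset.mem_insert] at hy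
    rcases hy with rfl | hy
    · simp [IsRoot, hc]
    · obtain ⟨a, -, rfl⟩ := Finset.mem_image.1 hy
      rw [IsRoot, eval_sub, eval_pow, eval_X, ← map_pow, FiniteField.pow_card, sub_self]
  have h2 := Finset.card_le_card hsub
  have h3 := Multiset.toFinset_card_le (X ^ Fintype.card F - X : L[X]).roots
  have h4 := card_roots' (X ^ Fintype.card F - X : L[X])
  rw [FiniteField.X_pow_card_sub_X_natDegree_eq L h1] at h4
  omega

theorem TOR_tw_mul {F L : Type} [Field F] [Fintype F] [Field L] [Algebra F L] (A B : L[X]) :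
    tw F (A * B) = tw F A * tw F B := Polynomial.map_mul _

theorem TOR_tw_add {F L : Type} [Field F] [Fintype F] [Field L] [Algebra F L] (A B : L[X]) :
    tw F (A + B) = tw F A + tw F B := Polynomial.map_add _

theorem TOR_tw_sub {F L : Type} [Field F] [Fintype F] [Field L] [Algebra F L] (A B : L[X]) :
    tw F (A - B) = tw F A - tw F B := Polynomial.map_sub _

theorem TOR_tw_one {F L : Type} [Field F] [Fintype F] [Field L] [Algebra F L] :
    tw F (1 : L[X]) = 1 := Polynomial.map_one _

theorem TOR_tw_map {F L : Type} [Field F] [Fintype F] [Field L] [Algebra F L] (M : F[X]) :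
    tw F (M.map (algebraMap F L)) = M.map (algebraMap F L) := by
  unfold tw
  rw [Polynomial.map_map]
  congr 1
  exact RingHom.ext fun a => (FiniteField.frobeniusAlgHom F L).commutes a

theorem TOR_coeff_tw {F L : Type} [Field F] [Fintype F] [Field L] [Algebra F L] (A : L[X])
    (i : ℕ) : (tw F A).coeff i = A.coeff i ^ Fintype.card F := by
  unfold tw
  rw [coeff_map]
  rfl

theorem s_TOR (F : Type) [Field F] [Fintype F] : S_TOR F := by
  intro M hM hm L _ _ x Y Y' hY hdeg hdvd
  obtain ⟨-, hcop, heq⟩ := hY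
  set A : L[X] := M.map (algebraMap F L) with hA
  have hAm : A.Monic := hM.map _
  have hAdeg : A.degree = M.degree := hM.degree_map _
  obtain ⟨a, b, hab⟩ := hcop
  set Z : L[X] := (a * Y') %ₘ A with hZ
  have hZdeg : Z.degree < A.degree := degree_modByMonic_lt _ hAm
  have h1 : A ∣ a * Y' - Z := by
    have := modByMonic_add_div (a * Y') A
    rw [← hZ] at this
    exact ⟨(a * Y') /ₘ A, by linear_combination -this⟩
  -- `Z Y = Y'` modulo `A`
  have h2 : A ∣ Z * Y - Y' := by
    have e : Z * Y - Y' = -((a * Y' - Z) * Y) - A * (b * Y') := by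
      linear_combination (Y' : L[X]) * hab
    rw [e]
    exact dvd_sub (dvd_neg.2 (h1.mul_right _)) (dvd_mul_right _ _)
  -- apply `tw`
  have h3 : A ∣ tw F Z * tw F Y - tw F Y' := by
    obtain ⟨c, hc⟩ := h2
    have := congrArg (tw F) hc
    rw [TOR_tw_sub, TOR_tw_mul, TOR_tw_mul, hA, TOR_tw_map, ← hA] at this
    exact ⟨_, this⟩
  have h4 : A ∣ (tw F Z - Z) * tw F Y := by
    have e : (tw F Z - Z) * tw F Y = (tw F Z * tw F Y - tw F Y') +
        (tw F Y' - (X - C x) * Y') - Z * (tw F Y - (X - C x) * Y) -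
        (X - C x) * (Z * Y - Y') := by ring
    rw [e]
    exact dvd_sub (dvd_sub (dvd_add h3 hdvd) (heq.mul_left _)) (h2.mul_left _)
  have h5 : IsCoprime A (tw F Y) := by
    refine IsCoprime.symm ⟨tw F a, tw F b, ?_⟩
    have := congrArg (tw F) hab
    rw [TOR_tw_add, TOR_tw_mul, TOR_tw_mul, TOR_tw_one, hA, TOR_tw_map, ← hA] at this
    exact this
  have h6 : A ∣ tw F Z - Z := h5.dvd_of_dvd_mul_right h4
  have hZZ : tw F Z = Z := by
    have hd : (tw F Z - Z).degree < A.degree := by
      refine (degree_sub_le _ _).trans_lt (max_lt ?_ hZdeg)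
      exact (degree_map_le).trans_lt hZdeg
    exact sub_eq_zero.1 (eq_zero_of_dvd_of_degree_lt h6 hd)
  -- descend
  have h7 : Z ∈ lifts (algebraMap F L) := by
    rw [lifts_iff_coeff_lifts]
    intro i
    have h8 : Z.coeff i ^ Fintype.card F = Z.coeff i := by
      rw [← TOR_coeff_tw, hZZ]
    obtain ⟨c, hc⟩ := TOR_mem_range h8
    exact ⟨c, hc⟩
  obtain ⟨g, hg⟩ := (mem_lifts _).1 h7
  refine ⟨g, ?_, ?_, ?_⟩
  · rw [← hAdeg, ← degree_map g (algebraMap F L), hg]
    exact hZdeg
  · unfold act
    rw [hg, ← hA]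
    have e1 : (Z * Y) %ₘ A = Y' %ₘ A := by
      have := (modByMonic_eq_zero_iff_dvd hAm).2 h2
      rwa [sub_modByMonic, sub_eq_zero] at this
    rw [e1, (modByMonic_eq_self_iff hAm).2 (by rw [hAdeg]; exact hdeg)]
  · intro hc
    obtain ⟨d, hd⟩ := h2
    have e1 : Z * Y = Y' + A * d := by rw [← hd]; ring
    have h8 : IsCoprime (Z * Y) A := by
      rw [e1]
      exact hc.add_mul_left_left d
    have h9 : IsCoprime Z A := h8.of_mul_left_left
    rw [← hg, hA, isCoprime_map] at h9
    exact h9

end Pool.RN
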